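import Mathlib

set_option autoImplicit false

open scoped InnerProductSpace InnerProduct

namespace Pool.Agent.H919R3.L2

section Reg
variable {E F : Type*} [NormedAddCommGroup E] [InnerProductSpace ℂ E] [CompleteSpace E]
  [NormedAddCommGroup F] [InnerProductSpace ℂ F] [CompleteSpace F]

/-- `R` is the inverse of `T† T + ε`. -/
def IsReg (T : E →L[ℂ] F) (ε : ℝ) (R : E →L[ℂ] E) : Prop :=
  (∀ x, ContinuousLinearMap.adjoint T (T (R x)) + (ε : ℂ) • R x = x) ∧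
  (∀ x, R (ContinuousLinearMap.adjoint T (T x) + (ε : ℂ) • x) = x)

theorem exists_reg (T : E →L[ℂ] F) (ε : ℝ) (hε : 0 < ε) : ∃ R : E →L[ℂ] E, IsReg T ε R := by
  let A : E →L[ℂ] E := (ContinuousLinearMap.adjoint T).comp T + algebraMap ℝ (E →L[ℂ] E) ε
  have h0 : (0 : E →L[ℂ] E) ≤ (ContinuousLinearMap.adjoint T).comp T := by
    rw [ContinuousLinearMap.nonneg_iff_isPositive]
    exact ContinuousLinearMap.isPositive_adjoint_comp_self T
  have hle : algebraMap ℝ (E →L[ℂ] E) ε ≤ A := by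
    simpa [A] using h0
  have hu : IsUnit A := by
    refine CStarAlgebra.isUnit_of_le _ hle ⟨?_, ?_⟩
    · exact algebraMap_nonneg _ hε.le
    · exact (IsUnit.mk0 ε hε.ne').map (algebraMap ℝ (E →L[ℂ] E))
  obtain ⟨u, hu⟩ := hu
  refine ⟨((u⁻¹ : (E →L[ℂ] E)ˣ) : E →L[ℂ] E), ?_, ?_⟩
  · intro x
    have h1 : (A * ((u⁻¹ : (E →L[ℂ] E)ˣ) : E →L[ℂ] E)) x = x := by
      rw [← hu, Units.mul_inv]; rfl
    simpa [A, Algebra.algebraMap_eq_smul_one] using h1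
  · intro x
    have h1 : (((u⁻¹ : (E →L[ℂ] E)ˣ) : E →L[ℂ] E) * A) x = x := by
      rw [← hu, Units.inv_mul]; rfl
    simpa [A, Algebra.algebraMap_eq_smul_one] using h1

variable {T : E →L[ℂ] F} {ε : ℝ} {R : E →L[ℂ] E}

theorem IsReg.inner_self (hR : IsReg T ε R) (x : E) :
    (⟪R x, x⟫_ℂ) = ((‖T (R x)‖ ^ 2 + ε * ‖R x‖ ^ 2 : ℝ) : ℂ) := by
  have a2 : (⟪R x, x⟫_ℂ) = ⟪R x, ContinuousLinearMap.adjoint T (T (R x)) + (ε : ℂ) • R x⟫_ℂ := by
    rw [hR.1 x]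
  have a3 : ⟪T (R x), T (R x)⟫_ℂ = ((‖T (R x)‖ ^ 2 : ℝ) : ℂ) := by
    rw [inner_self_eq_norm_sq_to_K]; norm_cast
  have a4 : ⟪R x, R x⟫_ℂ = ((‖R x‖ ^ 2 : ℝ) : ℂ) := by
    rw [inner_self_eq_norm_sq_to_K]; norm_cast
  rw [a2, inner_add_right, ContinuousLinearMap.adjoint_inner_right, inner_smul_right, a3, a4,
    ← Complex.ofReal_mul, ← Complex.ofReal_add]

theorem IsReg.re_inner_self_nonneg (hR : IsReg T ε R) (hε : 0 < ε) (x : E) :
    0 ≤ (⟪x, R x⟫_ℂ).re := by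
  have h := hR.inner_self x
  have h2 : (⟪x, R x⟫_ℂ).re = (⟪R x, x⟫_ℂ).re := by
    rw [← inner_conj_symm x (R x), Complex.conj_re]
  rw [h2, h, Complex.ofReal_re]
  positivity

theorem IsReg.norm_le (hR : IsReg T ε R) (hε : 0 < ε) (x : E) : ε * ‖R x‖ ≤ ‖x‖ := by
  have h := hR.inner_self x
  have h1 : (‖T (R x)‖ ^ 2 + ε * ‖R x‖ ^ 2 : ℝ) ≤ ‖R x‖ * ‖x‖ := by
    have h' := re_inner_le_norm (𝕜 := ℂ) (R x) x
    rw [h] at h'
    exact h'
  rcases eq_or_lt_of_le (norm_nonneg (R x)) with h0 | h0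
  · rw [← h0]; simp
  · have h2 : ε * ‖R x‖ * ‖R x‖ ≤ ‖x‖ * ‖R x‖ := by nlinarith [sq_nonneg ‖T (R x)‖]
    exact le_of_mul_le_mul_right h2 h0

theorem IsReg.norm_sq_le (hR : IsReg T ε R) (hε : 0 < ε) (x : E) :
    ε * ‖T (R x)‖ ^ 2 ≤ ‖x‖ ^ 2 := by
  have h := hR.inner_self x
  have h1 : (‖T (R x)‖ ^ 2 + ε * ‖R x‖ ^ 2 : ℝ) ≤ ‖R x‖ * ‖x‖ := by
    have h' := re_inner_le_norm (𝕜 := ℂ) (R x) x
    rw [h] at h'
    exact h'
  have h2 := hR.norm_le hε x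
  have h3 : ‖T (R x)‖ ^ 2 ≤ ‖R x‖ * ‖x‖ := by nlinarith [sq_nonneg ‖R x‖]
  calc ε * ‖T (R x)‖ ^ 2 ≤ ε * (‖R x‖ * ‖x‖) := by gcongr
    _ = (ε * ‖R x‖) * ‖x‖ := by ring
    _ ≤ ‖x‖ * ‖x‖ := by gcongr
    _ = ‖x‖ ^ 2 := by ring

/-- `‖T R T† y‖ ≤ ‖y‖`. -/
theorem IsReg.norm_Q_le (hR : IsReg T ε R) (hε : 0 < ε) (y : F) :
    ‖T (R (ContinuousLinearMap.adjoint T y))‖ ≤ ‖y‖ := by
  set x := ContinuousLinearMap.adjoint T y with hx
  have h := hR.inner_self x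
  have h1 : (⟪R x, x⟫_ℂ).re ≤ ‖T (R x)‖ * ‖y‖ := by
    rw [hx, ContinuousLinearMap.adjoint_inner_right]
    exact re_inner_le_norm (𝕜 := ℂ) _ _
  rw [h, Complex.ofReal_re] at h1
  rcases eq_or_lt_of_le (norm_nonneg (T (R x))) with h0 | h0
  · rw [← h0]; exact norm_nonneg _
  · have h2 : ‖T (R x)‖ * ‖T (R x)‖ ≤ ‖y‖ * ‖T (R x)‖ := by
      nlinarith [sq_nonneg ‖R x‖, mul_nonneg hε.le (sq_nonneg ‖R x‖)]
    exact le_of_mul_le_mul_right h2 h0

/-- `R` commutes with whatever commutes with `T† T`, in the form needed below. -/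
theorem IsReg.comm (hR : IsReg T ε R) (U : E → E) (hadd : ∀ x y, U (x + y) = U x + U y)
    (hsmul : ∀ (c : ℂ) x, U (c • x) = c • U x)
    (hU : ∀ x, ContinuousLinearMap.adjoint T (T (U x)) = U (ContinuousLinearMap.adjoint T (T x)))
    (x : E) : R (U x) = U (R x) := by
  conv_lhs => rw [← hR.1 x]
  rw [hadd, hsmul, ← hU, hR.2]

theorem IsReg.smul_apply_T (hR : IsReg T ε R) (x : E) :
    R (ContinuousLinearMap.adjoint T (T x)) = x - (ε : ℂ) • R x := by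
  have h := hR.2 x
  rw [map_add, map_smul] at h
  exact eq_sub_of_add_eq h

/-- strong convergence of `T R T†` to the projection to the closure of the range. -/
theorem reg_tendsto (T : E →L[ℂ] F) (P : Submodule ℂ F) [P.HasOrthogonalProjection]
    (hP : P = (LinearMap.range (T : E →ₗ[ℂ] F)).topologicalClosure) (y : F) (ρ : ℝ) (hρ : 0 < ρ) :
    ∃ ε₀ : ℝ, 0 < ε₀ ∧ ∀ (ε : ℝ) (R : E →L[ℂ] E), 0 < ε → ε < ε₀ → IsReg T ε R →
      ‖T (R (ContinuousLinearMap.adjoint T y)) - P.starProjection y‖ ≤ ρ := by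
  have hmem : P.starProjection y ∈ closure (Set.range T) := by
    have h1 : P.starProjection y ∈ P := Submodule.starProjection_apply_mem P y
    have h2 : P.starProjection y ∈ ((LinearMap.range (T : E →ₗ[ℂ] F)).topologicalClosure : Set F) :=
      hP.le h1
    rw [Submodule.topologicalClosure_coe] at h2
    convert h2 using 2
    ext z; simp
  rw [Metric.mem_closure_iff] at hmem
  obtain ⟨z, ⟨η, rfl⟩, hz⟩ := hmem (ρ / 3) (by positivity)
  rw [dist_eq_norm] at hz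
  refine ⟨(ρ / 3) ^ 2 / (‖η‖ ^ 2 + 1), by positivity, ?_⟩
  intro ε R hε hε0 hR
  have hadj : ContinuousLinearMap.adjoint T y
      = ContinuousLinearMap.adjoint T (P.starProjection y) := by
    rw [← sub_eq_zero, ← map_sub]
    apply ext_inner_right ℂ
    intro v
    rw [ContinuousLinearMap.adjoint_inner_left, inner_zero_left]
    have h1 : y - P.starProjection y ∈ Pᗮ := Submodule.sub_starProjection_mem_orthogonal y
    apply Submodule.inner_left_of_mem_orthogonal _ h1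
    rw [hP]
    exact Submodule.le_topologicalClosure _ ⟨v, rfl⟩
  rw [hadj]
  set p := P.starProjection y with hp
  have e1 : T (R (ContinuousLinearMap.adjoint T p)) - p
      = T (R (ContinuousLinearMap.adjoint T (p - T η)))
        + (T (R (ContinuousLinearMap.adjoint T (T η))) - T η) + (T η - p) := by
    rw [map_sub, map_sub, map_sub]; abel
  have n1 := hR.norm_Q_le hε (p - T η)
  have n2 : ‖T (R (ContinuousLinearMap.adjoint T (T η))) - T η‖ ≤ ρ / 3 := by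
    rw [hR.smul_apply_T]
    have e2 : T (η - (ε : ℂ) • R η) - T η = - ((ε : ℂ) • T (R η)) := by
      rw [map_sub, map_smul]; abel
    rw [e2, norm_neg, norm_smul]
    have h3 := hR.norm_sq_le hε η
    have h4 : (‖(ε : ℂ)‖ * ‖T (R η)‖) ^ 2 ≤ (ρ / 3) ^ 2 := by
      have h5 : ‖(ε : ℂ)‖ = ε := by simp [abs_of_pos hε]
      rw [h5]
      calc (ε * ‖T (R η)‖) ^ 2 = ε * (ε * ‖T (R η)‖ ^ 2) := by ring
        _ ≤ ε * ‖η‖ ^ 2 := by gcongr
        _ ≤ ((ρ / 3) ^ 2 / (‖η‖ ^ 2 + 1)) * (‖η‖ ^ 2 + 1) := by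
            have : ‖η‖ ^ 2 ≤ ‖η‖ ^ 2 + 1 := by linarith
            gcongr
        _ = (ρ / 3) ^ 2 := by field_simp
    exact abs_le_of_sq_le_sq' h4 (by positivity) |>.2
  have n3 : ‖T η - p‖ ≤ ρ / 3 := by rw [norm_sub_rev]; exact hz.le
  rw [e1]
  calc _ ≤ ‖T (R (ContinuousLinearMap.adjoint T (p - T η)))‖
        + ‖T (R (ContinuousLinearMap.adjoint T (T η))) - T η‖ + ‖T η - p‖ := norm_add₃_le
    _ ≤ ρ / 3 + ρ / 3 + ρ / 3 := by
        gcongr
        exact n1.trans hz.le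
    _ = ρ := by ring

/-- if `T` is injective then `ε R → 0` strongly. -/
theorem reg_tendsto_zero (T : E →L[ℂ] F) (hT : Function.Injective T) (x : E) (ρ : ℝ) (hρ : 0 < ρ) :
    ∃ ε₀ : ℝ, 0 < ε₀ ∧ ∀ (ε : ℝ) (R : E →L[ℂ] E), 0 < ε → ε < ε₀ → IsReg T ε R →
      ε * ‖R x‖ ≤ ρ := by
  let A : E →L[ℂ] E := (ContinuousLinearMap.adjoint T).comp T
  have hdense : (LinearMap.range (A : E →ₗ[ℂ] E)).topologicalClosure = ⊤ := by
    rw [Submodule.topologicalClosure_eq_top_iff, Submodule.eq_bot_iff]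
    intro v hv
    have h0 : A v ∈ LinearMap.range (A : E →ₗ[ℂ] E) := ⟨v, rfl⟩
    have h1 : ⟪A v, v⟫_ℂ = 0 := Submodule.inner_right_of_mem_orthogonal h0 hv
    have h2 : ⟪T v, T v⟫_ℂ = 0 := by
      rw [← ContinuousLinearMap.adjoint_inner_left]; exact h1
    have h3 : T v = 0 := inner_self_eq_zero.mp h2
    exact hT (by rw [h3, map_zero])
  have hmem : x ∈ closure (Set.range A) := by
    have h1 : x ∈ (LinearMap.range (A : E →ₗ[ℂ] E)).topologicalClosure := by rw [hdense]; trivial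
    have h2 : x ∈ ((LinearMap.range (A : E →ₗ[ℂ] E)).topologicalClosure : Set E) := h1
    rw [Submodule.topologicalClosure_coe] at h2
    convert h2 using 2
    ext z; simp
  rw [Metric.mem_closure_iff] at hmem
  obtain ⟨z, ⟨η, rfl⟩, hz⟩ := hmem (ρ / 2) (by positivity)
  rw [dist_eq_norm] at hz
  refine ⟨(ρ / 2) / (2 * ‖η‖ + 1), by positivity, ?_⟩
  intro ε R hε hε0 hR
  have e1 : R x = R (x - A η) + (η - (ε : ℂ) • R η) := by
    have : R (A η) = η - (ε : ℂ) • R η := hR.smul_apply_T η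
    rw [map_sub, this]; abel
  have n1 := hR.norm_le hε (x - A η)
  have n2 := hR.norm_le hε η
  have h5 : ‖(ε : ℂ)‖ = ε := by simp [abs_of_pos hε]
  have n3 : ‖η - (ε : ℂ) • R η‖ ≤ 2 * ‖η‖ := by
    refine (norm_sub_le _ _).trans ?_
    rw [norm_smul, h5]; linarith
  rw [e1]
  calc ε * ‖R (x - A η) + (η - (ε : ℂ) • R η)‖
      ≤ ε * (‖R (x - A η)‖ + ‖η - (ε : ℂ) • R η‖) := by
        gcongr; exact norm_add_le _ _
    _ = ε * ‖R (x - A η)‖ + ε * ‖η - (ε : ℂ) • R η‖ := by ring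
    _ ≤ ρ / 2 + ε * (2 * ‖η‖) := by
        gcongr
        exact n1.trans hz.le
    _ ≤ ρ / 2 + ((ρ / 2) / (2 * ‖η‖ + 1)) * (2 * ‖η‖ + 1) := by
        have : 2 * ‖η‖ ≤ 2 * ‖η‖ + 1 := by linarith
        gcongr
    _ = ρ := by
        have : (2 * ‖η‖ + 1) ≠ 0 := by positivity
        field_simp; norm_num

end Reg

end Pool.Agent.H919R3.L2
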