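import Pool.Agent.H13.L.S8.H919R3.L2.Reg

set_option autoImplicit false
set_option linter.unusedSectionVars false
set_option linter.unusedSimpArgs false

open scoped InnerProductSpace InnerProduct ENNReal

namespace Pool.Agent.H919R3.L2

/-- `ℓ²(H × I)`. -/
noncomputable abbrev EE (H I : Type) := lp (fun _ : H × I => ℂ) 2

/-- The basis vector at `x`. -/
noncomputable def dl {H I : Type} (x : H × I) : EE H I := by
  classical exact lp.single 2 x 1

section
variable {H I J : Type} [Group H]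

/-- left translation of the index set -/
def trE (I : Type) (k : H) : (H × I) ≃ (H × I) where
  toFun x := (k⁻¹ * x.1, x.2)
  invFun x := (k * x.1, x.2)
  left_inv x := by simp
  right_inv x := by simp

theorem memlp_two_iff {X : Type} (f : X → ℂ) :
    Memℓp f 2 ↔ Summable fun x => ‖f x‖ ^ 2 := by
  rw [memℓp_gen_iff (by norm_num)]
  simp only [ENNReal.toReal_ofNat, Real.rpow_ofNat]

theorem memlp_comp_equiv {X Y : Type} (e : X ≃ Y) (f : lp (fun _ : Y => ℂ) 2) :
    Memℓp (fun x => f (e x)) 2 := by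
  rw [memlp_two_iff]
  have h := (memlp_two_iff _).1 f.2
  exact (Equiv.summable_iff e).2 h

/-- left translation by `k` -/
noncomputable def tr (k : H) (f : EE H I) : EE H I :=
  ⟨fun x => f (trE I k x), memlp_comp_equiv (trE I k) f⟩

theorem tr_apply (k : H) (f : EE H I) (x : H × I) : tr k f x = f (k⁻¹ * x.1, x.2) := rfl

theorem tr_add (k : H) (f g : EE H I) : tr k (f + g) = tr k f + tr k g := by
  ext x; rfl

theorem tr_smul (k : H) (c : ℂ) (f : EE H I) : tr k (c • f) = c • tr k f := by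
  ext x; rfl

theorem tr_tr (k l : H) (f : EE H I) : tr k (tr l f) = tr (k * l) f := by
  ext x; simp [tr_apply, mul_assoc]

theorem tr_one (f : EE H I) : tr (1 : H) f = f := by
  ext x; simp [tr_apply]

theorem inner_tr (k : H) (f g : EE H I) : ⟪tr k f, tr k g⟫_ℂ = ⟪f, g⟫_ℂ := by
  rw [lp.inner_eq_tsum, lp.inner_eq_tsum]
  exact Equiv.tsum_eq (trE I k) (fun x => ⟪f x, g x⟫_ℂ)

theorem inner_tr_left (k : H) (f g : EE H I) : ⟪tr k f, g⟫_ℂ = ⟪f, tr k⁻¹ g⟫_ℂ := by
  rw [← inner_tr k f, tr_tr]; simp [tr_one]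

theorem dl_apply_self (x : H × I) : dl x x = 1 := by
  classical
  unfold dl
  exact lp.single_apply_self 2 x 1

theorem dl_apply_ne (x y : H × I) (h : y ≠ x) : dl x y = 0 := by
  classical
  unfold dl
  exact lp.single_apply_ne 2 x 1 h

theorem inner_dl_left (x : H × I) (f : EE H I) : ⟪dl x, f⟫_ℂ = f x := by
  classical
  unfold dl
  rw [lp.inner_single_left]; simp

theorem inner_dl_right (x : H × I) (f : EE H I) : ⟪f, dl x⟫_ℂ = (starRingEnd ℂ) (f x) := by
  rw [← inner_conj_symm, inner_dl_left]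

theorem tr_dl (k h : H) (i : I) : tr k (dl (h, i)) = dl (k * h, i) := by
  ext ⟨x, j⟩
  rw [tr_apply]
  by_cases hx : (x, j) = (k * h, i)
  · rw [hx, dl_apply_self]
    simp only [Prod.mk.injEq] at hx
    simp only [inv_mul_cancel_left]
    rw [dl_apply_self]
  · rw [dl_apply_ne _ _ hx, dl_apply_ne]
    intro hh
    apply hx
    simp only [Prod.mk.injEq] at hh ⊢
    exact ⟨by rw [← hh.1]; simp, hh.2⟩

/-- An operator commutes with the left translations. -/
def Eqv (T : EE H I →L[ℂ] EE H J) : Prop := ∀ (k : H) (f : EE H I), T (tr k f) = tr k (T f)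

theorem Eqv.adjoint {T : EE H I →L[ℂ] EE H J} (hT : Eqv T) :
    Eqv (ContinuousLinearMap.adjoint T) := by
  intro k f
  apply ext_inner_right ℂ
  intro v
  rw [ContinuousLinearMap.adjoint_inner_left, inner_tr_left, ← hT, inner_tr_left,
    ContinuousLinearMap.adjoint_inner_left]

theorem tsum_prod_fin [Fintype J] (F : H × J → ℂ) (hF : Summable F) :
    ∑' x, F x = ∑ j, ∑' h, F (h, j) := by
  rw [← Equiv.tsum_eq (Equiv.prodComm J H) F]
  have h2 : Summable (fun c : J × H => F ((Equiv.prodComm J H) c)) :=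
    (Equiv.summable_iff (Equiv.prodComm J H)).2 hF
  rw [Summable.tsum_prod h2, tsum_fintype]
  rfl

theorem HS [Fintype I] [Fintype J] (X Y : EE H I →L[ℂ] EE H J) (hX : Eqv X) (hY : Eqv Y) :
    ∑ i : I, ⟪X (dl (1, i)), Y (dl (1, i))⟫_ℂ
      = ∑ j : J, ⟪ContinuousLinearMap.adjoint Y (dl (1, j)),
          ContinuousLinearMap.adjoint X (dl (1, j))⟫_ℂ := by
  have key : ∀ (Z : EE H I →L[ℂ] EE H J) (_ : Eqv Z) (h : H) (i : I) (j : J),
      ContinuousLinearMap.adjoint Z (dl (1, j)) (h, i)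
        = (starRingEnd ℂ) (Z (dl (1, i)) (h⁻¹, j)) := by
    intro Z hZ h i j
    rw [← inner_dl_left (h, i), ContinuousLinearMap.adjoint_inner_right, inner_dl_right]
    congr 1
    have : dl (h, i) = tr h (dl ((1 : H), i)) := by rw [tr_dl, mul_one]
    rw [this, hZ, tr_apply]
    simp
  have e1 : ∀ i, ⟪X (dl (1, i)), Y (dl (1, i))⟫_ℂ
      = ∑ j, ∑' h : H, ⟪X (dl (1, i)) (h, j), Y (dl (1, i)) (h, j)⟫_ℂ := by
    intro i
    rw [lp.inner_eq_tsum]
    exact tsum_prod_fin _ (lp.summable_inner _ _)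
  have e2 : ∀ j, ⟪ContinuousLinearMap.adjoint Y (dl (1, j)),
          ContinuousLinearMap.adjoint X (dl (1, j))⟫_ℂ
      = ∑ i, ∑' h : H, ⟪X (dl (1, i)) (h, j), Y (dl (1, i)) (h, j)⟫_ℂ := by
    intro j
    rw [lp.inner_eq_tsum]
    rw [tsum_prod_fin _ (lp.summable_inner _ _)]
    refine Finset.sum_congr rfl fun i _ => ?_
    rw [← Equiv.tsum_eq (Equiv.inv H)]
    refine tsum_congr fun h => ?_
    simp only [Equiv.inv_apply]
    rw [key X hX, key Y hY, inv_inv]
    simp only [RCLike.inner_apply, RingHomCompTriple.comp_apply, RingHom.id_apply, map_mul]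
    ring
  rw [Finset.sum_congr rfl fun i _ => e1 i, Finset.sum_congr rfl fun j _ => e2 j,
    Finset.sum_comm]

/-- `∑ ‖P δ_j‖²`, the von Neumann dimension of (the range of) `P`. -/
noncomputable def tau [Fintype J] (P : Submodule ℂ (EE H J)) [P.HasOrthogonalProjection] : ℝ :=
  ∑ j : J, ‖P.starProjection (dl ((1 : H), j))‖ ^ 2

theorem norm_dl (x : H × I) : ‖(dl x : EE H I)‖ = 1 := by
  classical
  unfold dl
  rw [lp.norm_single (by norm_num)]; simp

theorem sum_reg [Fintype I] [Fintype J] (T : EE H I →L[ℂ] EE H J) (hT : Eqv T) (ε : ℝ)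
    (R : EE H I →L[ℂ] EE H I) (hR : IsReg T ε R) :
    ∑ j : J, ⟪(dl (1, j) : EE H J), T (R (ContinuousLinearMap.adjoint T (dl (1, j))))⟫_ℂ
      = ∑ i : I, (1 - (ε : ℂ) * ⟪(dl (1, i) : EE H I), R (dl (1, i))⟫_ℂ) := by
  have hRe : ∀ (k : H) (f : EE H I), R (tr k f) = tr k (R f) := by
    intro k f
    refine hR.comm (tr k) (tr_add k) (tr_smul k) ?_ f
    intro x
    rw [hT, hT.adjoint]
  have hTR : Eqv (T.comp R) := by
    intro k f
    simp only [ContinuousLinearMap.comp_apply]
    rw [hRe, hT]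
  have h := HS T (T.comp R) hT hTR
  have e1 : ∀ j : J, ⟪ContinuousLinearMap.adjoint (T.comp R) (dl (1, j)),
          ContinuousLinearMap.adjoint T (dl (1, j))⟫_ℂ
      = ⟪(dl (1, j) : EE H J), T (R (ContinuousLinearMap.adjoint T (dl (1, j))))⟫_ℂ := by
    intro j
    rw [ContinuousLinearMap.adjoint_inner_left]; rfl
  have e2 : ∀ i : I, ⟪T (dl (1, i)), (T.comp R) (dl (1, i))⟫_ℂ
      = 1 - (ε : ℂ) * ⟪(dl (1, i) : EE H I), R (dl (1, i))⟫_ℂ := by
    intro i
    rw [ContinuousLinearMap.comp_apply, ← ContinuousLinearMap.adjoint_inner_right,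
      eq_sub_of_add_eq (hR.1 (dl (1, i))), inner_sub_right, inner_smul_right, inner_dl_left,
      dl_apply_self]
  rw [← Finset.sum_congr rfl fun j _ => e1 j, ← h, Finset.sum_congr rfl fun i _ => e2 i]

theorem norm_sq_star (P : Submodule ℂ (EE H J)) [P.HasOrthogonalProjection] (v : EE H J) :
    ‖P.starProjection v‖ ^ 2 = (⟪v, P.starProjection v⟫_ℂ).re := by
  have h1 : ⟪v - P.starProjection v, P.starProjection v⟫_ℂ = 0 :=
    Submodule.starProjection_inner_eq_zero v _ (Submodule.starProjection_apply_mem P v)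
  rw [inner_sub_left, sub_eq_zero] at h1
  rw [h1, inner_self_eq_norm_sq_to_K]
  norm_cast

theorem close_aux (P : Submodule ℂ (EE H J)) [P.HasOrthogonalProjection] (j : J) (w : EE H J)
    (ρ : ℝ) (h : ‖w - P.starProjection (dl (1, j))‖ ≤ ρ) :
    |(⟪(dl (1, j) : EE H J), w⟫_ℂ).re - ‖P.starProjection (dl ((1 : H), j))‖ ^ 2| ≤ ρ := by
  rw [norm_sq_star, ← Complex.sub_re, ← inner_sub_right]
  refine (Complex.abs_re_le_norm _).trans ?_
  refine (norm_inner_le_norm _ _).trans ?_
  rw [norm_dl, one_mul]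
  exact h

theorem exists_good [Fintype I] [Fintype J] (T : EE H I →L[ℂ] EE H J)
    (P : Submodule ℂ (EE H J)) [P.HasOrthogonalProjection]
    (hP : P = (LinearMap.range (T : EE H I →ₗ[ℂ] EE H J)).topologicalClosure)
    (ρ : ℝ) (hρ : 0 < ρ) :
    ∃ ε R, 0 < ε ∧ IsReg T ε R ∧
      (∀ j : J, |(⟪(dl (1, j) : EE H J), T (R (ContinuousLinearMap.adjoint T (dl (1, j))))⟫_ℂ).re
        - ‖P.starProjection (dl ((1 : H), j))‖ ^ 2| ≤ ρ) ∧
      (Function.Injective T → ∀ i : I, ε * ‖R (dl ((1 : H), i))‖ ≤ ρ) := by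
  have h1 : ∀ j : J, ∀ᶠ ε in nhdsWithin (0 : ℝ) (Set.Ioi 0), ∀ R, IsReg T ε R →
      ‖T (R (ContinuousLinearMap.adjoint T (dl (1, j)))) - P.starProjection (dl (1, j))‖ ≤ ρ := by
    intro j
    obtain ⟨e0, he0, h⟩ := reg_tendsto T P hP (dl (1, j)) ρ hρ
    filter_upwards [Ioo_mem_nhdsGT he0] with ε hε R hR
    exact h ε R hε.1 hε.2 hR
  have h2 : Function.Injective T → ∀ i : I, ∀ᶠ ε in nhdsWithin (0 : ℝ) (Set.Ioi 0),
      ∀ R, IsReg T ε R → ε * ‖R (dl ((1 : H), i))‖ ≤ ρ := by
    intro hinj i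
    obtain ⟨e0, he0, h⟩ := reg_tendsto_zero T hinj (dl (1, i)) ρ hρ
    filter_upwards [Ioo_mem_nhdsGT he0] with ε hε R hR
    exact h ε R hε.1 hε.2 hR
  have h3 : ∀ᶠ ε in nhdsWithin (0 : ℝ) (Set.Ioi 0), 0 < ε := self_mem_nhdsWithin
  have h1' := Filter.eventually_all.2 h1
  by_cases hinj : Function.Injective T
  · have h2' := Filter.eventually_all.2 (h2 hinj)
    obtain ⟨ε, ha, hb, hc⟩ := (h1'.and (h2'.and h3)).exists
    obtain ⟨R, hR⟩ := exists_reg T ε hc
    exact ⟨ε, R, hc, hR, fun j => close_aux P j _ ρ (ha j R hR), fun _ i => hb i R hR⟩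
  · obtain ⟨ε, ha, hc⟩ := (h1'.and h3).exists
    obtain ⟨R, hR⟩ := exists_reg T ε hc
    exact ⟨ε, R, hc, hR, fun j => close_aux P j _ ρ (ha j R hR), fun h => absurd h hinj⟩

theorem tau_le_card [Fintype I] [Fintype J] (T : EE H I →L[ℂ] EE H J) (hT : Eqv T)
    (P : Submodule ℂ (EE H J)) [P.HasOrthogonalProjection]
    (hP : P = (LinearMap.range (T : EE H I →ₗ[ℂ] EE H J)).topologicalClosure) :
    tau P ≤ Fintype.card I := by
  apply le_of_forall_pos_le_add
  intro δ hδ
  obtain ⟨ε, R, hε, hR, h1, -⟩ := exists_good T P hP (δ / (Fintype.card J + 1)) (by positivity)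
  have hs := congrArg Complex.re (sum_reg T hT ε R hR)
  rw [Complex.re_sum, Complex.re_sum] at hs
  have e1 : tau P ≤ ∑ j : J, ((⟪(dl (1, j) : EE H J),
      T (R (ContinuousLinearMap.adjoint T (dl (1, j))))⟫_ℂ).re + δ / (Fintype.card J + 1)) := by
    unfold tau
    refine Finset.sum_le_sum fun j _ => ?_
    have := (abs_le.1 (h1 j)).1
    linarith
  rw [Finset.sum_add_distrib, hs] at e1
  have e2 : ∑ i : I, (1 - (ε : ℂ) * ⟪(dl (1, i) : EE H I), R (dl (1, i))⟫_ℂ).re
      ≤ Fintype.card I := by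
    calc _ ≤ ∑ i : I, (1 : ℝ) := by
          refine Finset.sum_le_sum fun i _ => ?_
          have h := hR.re_inner_self_nonneg hε (dl (1, i))
          rw [Complex.sub_re, Complex.one_re, Complex.re_ofReal_mul]
          nlinarith
      _ = Fintype.card I := by simp
  have e3 : ∑ _j : J, δ / ((Fintype.card J : ℝ) + 1) ≤ δ := by
    rw [Finset.sum_const, nsmul_eq_mul, Finset.card_univ]
    have : (0 : ℝ) < (Fintype.card J : ℝ) + 1 := by positivity
    rw [mul_div_assoc', div_le_iff₀ this]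
    nlinarith
  linarith

theorem card_le_tau [Fintype I] [Fintype J] (T : EE H I →L[ℂ] EE H J) (hT : Eqv T)
    (hinj : Function.Injective T)
    (P : Submodule ℂ (EE H J)) [P.HasOrthogonalProjection]
    (hP : P = (LinearMap.range (T : EE H I →ₗ[ℂ] EE H J)).topologicalClosure) :
    (Fintype.card I : ℝ) ≤ tau P := by
  apply le_of_forall_pos_le_add
  intro δ hδ
  obtain ⟨ε, R, hε, hR, h1, h2⟩ := exists_good T P hP
    (δ / (Fintype.card J + Fintype.card I + 1)) (by positivity)
  have h2 := h2 hinj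
  have hs := congrArg Complex.re (sum_reg T hT ε R hR)
  rw [Complex.re_sum, Complex.re_sum] at hs
  set ρ := δ / ((Fintype.card J : ℝ) + Fintype.card I + 1) with hρ
  have e1 : ∑ j : J, ((⟪(dl (1, j) : EE H J),
      T (R (ContinuousLinearMap.adjoint T (dl (1, j))))⟫_ℂ).re) ≤ tau P + Fintype.card J * ρ := by
    have : (Fintype.card J : ℝ) * ρ = ∑ _j : J, ρ := by simp
    unfold tau
    rw [this, ← Finset.sum_add_distrib]
    refine Finset.sum_le_sum fun j _ => ?_
    have := (abs_le.1 (h1 j)).2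
    linarith
  have e2 : (Fintype.card I : ℝ) - Fintype.card I * ρ
      ≤ ∑ i : I, (1 - (ε : ℂ) * ⟪(dl (1, i) : EE H I), R (dl (1, i))⟫_ℂ).re := by
    calc (Fintype.card I : ℝ) - Fintype.card I * ρ = ∑ i : I, (1 - ρ : ℝ) := by
          simp
      _ ≤ _ := by
          refine Finset.sum_le_sum fun i _ => ?_
          rw [Complex.sub_re, Complex.one_re, Complex.re_ofReal_mul]
          have h3 : (⟪(dl (1, i) : EE H I), R (dl (1, i))⟫_ℂ).re ≤ ‖R (dl ((1 : H), i))‖ := by
            refine (Complex.re_le_norm _).trans ?_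
            refine (norm_inner_le_norm _ _).trans ?_
            rw [norm_dl, one_mul]
          have h4 := h2 i
          have h5 : ε * (⟪(dl (1, i) : EE H I), R (dl (1, i))⟫_ℂ).re
              ≤ ε * ‖R (dl ((1 : H), i))‖ := by gcongr
          linarith
  rw [hs] at e1
  have e3 : (Fintype.card J : ℝ) * ρ + Fintype.card I * ρ ≤ δ := by
    rw [hρ, ← add_mul, mul_div_assoc', div_le_iff₀ (by positivity)]
    nlinarith
  linarith

theorem tau_mono [Fintype J] (P Q : Submodule ℂ (EE H J)) [P.HasOrthogonalProjection]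
    [Q.HasOrthogonalProjection] (h : P ≤ Q) : tau P ≤ tau Q := by
  unfold tau
  refine Finset.sum_le_sum fun j _ => ?_
  have h1 : P.starProjection (dl ((1 : H), j))
      = P.starProjection (Q.starProjection (dl ((1 : H), j))) := by
    have := Submodule.starProjection_comp_starProjection_of_le h
    rw [← ContinuousLinearMap.comp_apply, this]
  rw [h1]
  gcongr
  exact Submodule.norm_starProjection_apply_le _ _

/-- `P ≤ Q` and `V = Q ⊖ P`. -/
theorem tau_sub [Fintype J] (P Q V : Submodule ℂ (EE H J)) [P.HasOrthogonalProjection]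
    [Q.HasOrthogonalProjection] [V.HasOrthogonalProjection] (h : P ≤ Q) (hV : V = Q ⊓ Pᗮ) :
    tau V = tau Q - tau P := by
  unfold tau
  rw [← Finset.sum_sub_distrib]
  refine Finset.sum_congr rfl fun j _ => ?_
  set x := (dl ((1 : H), j) : EE H J)
  have hPQ : P.starProjection (Q.starProjection x) = P.starProjection x := by
    have := Submodule.starProjection_comp_starProjection_of_le h
    rw [← ContinuousLinearMap.comp_apply, this]
  have h1 : V.starProjection x = Q.starProjection x - P.starProjection x := by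
    apply Submodule.eq_starProjection_of_mem_of_inner_eq_zero
    · rw [hV]
      refine ⟨Q.sub_mem (Submodule.starProjection_apply_mem _ _)
        (h (Submodule.starProjection_apply_mem _ _)), ?_⟩
      rw [← hPQ]
      exact Submodule.sub_starProjection_mem_orthogonal _
    · intro w hw
      rw [hV] at hw
      have a1 : ⟪x - Q.starProjection x, w⟫_ℂ = 0 :=
        Submodule.starProjection_inner_eq_zero x w hw.1
      have a2 : ⟪P.starProjection x, w⟫_ℂ = 0 :=
        Submodule.inner_right_of_mem_orthogonal (Submodule.starProjection_apply_mem P x) hw.2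
      have : x - (Q.starProjection x - P.starProjection x)
        = (x - Q.starProjection x) + P.starProjection x := by abel
      rw [this, inner_add_left, a1, a2, add_zero]
  rw [h1]
  have h2 : ‖Q.starProjection x‖ ^ 2 = ‖P.starProjection x‖ ^ 2
      + ‖Q.starProjection x - P.starProjection x‖ ^ 2 := by
    have h3 : ⟪P.starProjection x, Q.starProjection x - P.starProjection x⟫_ℂ = 0 := by
      apply Submodule.inner_right_of_mem_orthogonal (Submodule.starProjection_apply_mem P x)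
      rw [← hPQ]
      exact Submodule.sub_starProjection_mem_orthogonal _
    have h4 := norm_add_sq_eq_norm_sq_add_norm_sq_of_inner_eq_zero _ _ h3
    rw [add_sub_cancel] at h4
    simpa [sq] using h4
  linarith

end

end Pool.Agent.H919R3.L2
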